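import Pool.Agent.W5h42.PK.Ent

/-!
# Approximation by names over finite sets
-/

set_option autoImplicit false
set_option linter.unusedSectionVars false

open MeasureTheory Filter Topology
open scoped ENNReal symmDiff

noncomputable section

namespace Pool.Agent.W5h42.PK

open Pool.Agent.R546.MK (FM Hm law)

variable {X : Type*} [mX : MeasurableSpace X] {μ : Measure X} [IsProbabilityMeasure μ]
variable {G : Type*} [Group G] {Φ : G →* Equiv.Perm X}
variable {ι : Type*} [Fintype ι]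

open Classical in
/-- the indicator function of a set -/
def ind (B : Set X) : X → Bool := fun x => decide (x ∈ B)

theorem ind_iff {B : Set X} {x y : X} : ind B x = ind B y ↔ (x ∈ B ↔ y ∈ B) := by
  unfold ind
  rw [decide_eq_decide]

theorem fm_ind {B : Set X} (hB : MeasurableSet B) : FM (ind B) := by
  intro s
  have h : ind B ⁻¹' s = (B ∩ {_x | true ∈ s}) ∪ (Bᶜ ∩ {_x | false ∈ s}) := by
    ext x
    unfold ind
    by_cases hx : x ∈ B <;> simp [hx]
  rw [h]
  exact (hB.inter (MeasurableSet.const _)).union (hB.compl.inter (MeasurableSet.const _))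

theorem hm_ind {B : Set X} (hB : MeasurableSet B) :
    Hm μ (ind B) = Real.negMulLog (μ.real B) + Real.negMulLog (1 - μ.real B) := by
  unfold Hm H137.PFR.ent law
  rw [Fintype.sum_bool]
  have h1 : ind B ⁻¹' {true} = B := by
    ext x
    simp [ind]
  have h2 : ind B ⁻¹' {false} = Bᶜ := by
    ext x
    simp [ind]
  rw [h1, h2, probReal_compl_eq_one_sub hB]

/-- small sets have small entropy -/
theorem exists_small {ε : ℝ} (hε : 0 < ε) : ∃ δ : ℝ, 0 < δ ∧ ∀ B : Set X, MeasurableSet B →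
    μ.real B < δ → Hm μ (ind B) ≤ ε := by
  have hc : Continuous fun t : ℝ => Real.negMulLog t + Real.negMulLog (1 - t) :=
    Real.continuous_negMulLog.add (Real.continuous_negMulLog.comp (continuous_const.sub
      continuous_id))
  have h0 := hc.tendsto 0
  simp only [Real.negMulLog_zero, sub_zero, Real.negMulLog_one, add_zero] at h0
  have h1 := (tendsto_order.1 h0).2 ε hε
  obtain ⟨δ, hδ, hδ'⟩ := Metric.eventually_nhds_iff.1 h1
  refine ⟨δ, hδ, fun B hB hBδ => ?_⟩
  rw [hm_ind hB]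
  refine (hδ' ?_).le
  rw [Real.dist_eq, sub_zero, abs_of_nonneg measureReal_nonneg]
  exact hBδ

/-- the `σ`-algebra generated by the translates `α (Φ g x)`, `g ∈ I` -/
@[reducible] def gen (Φ : G →* Equiv.Perm X) (α : X → ι) (I : Set G) : MeasurableSpace X :=
  ⨆ g ∈ I, MeasurableSpace.comap (fun x => α (Φ g x)) ⊤

theorem gen_le (hΦ : ∀ g, MeasurePreserving (Φ g) μ μ) {α : X → ι} (hα : FM α) (I : Set G) :
    gen Φ α I ≤ mX := by
  refine iSup₂_le fun g _ => ?_
  rintro _ ⟨s, _, rfl⟩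
  exact fm_shift hΦ hα g s

theorem gen_mono {α : X → ι} {I J : Set G} (h : I ⊆ J) : gen Φ α I ≤ gen Φ α J :=
  biSup_mono h

theorem gen_meas {α : X → ι} {I : Set G} {g : G} (hg : g ∈ I) (s : Set ι) :
    MeasurableSet[gen Φ α I] ((fun x => α (Φ g x)) ⁻¹' s) := by
  have h : MeasurableSpace.comap (fun x => α (Φ g x)) ⊤ ≤ gen Φ α I := le_iSup₂_of_le g hg le_rfl
  exact h _ ⟨s, trivial, rfl⟩

/-- sets depending on finitely many coordinates -/
def cyl (Φ : G →* Equiv.Perm X) (α : X → ι) (I : Set G) : Set (Set X) :=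
  {C | ∃ K : Finset G, (∀ k ∈ K, k ∈ I) ∧ ∃ W : Set (K → ι), C = nmF Φ α K ⁻¹' W}

theorem cyl_alg (α : X → ι) (I : Set G) : IsSetAlgebra (cyl Φ α I) where
  empty_mem := ⟨∅, by simp, ∅, by simp⟩
  compl_mem := by
    rintro _ ⟨K, hK, W, rfl⟩
    exact ⟨K, hK, Wᶜ, rfl⟩
  union_mem := by
    classical
    rintro _ _ ⟨K, hK, W, rfl⟩ ⟨K', hK', W', rfl⟩
    refine ⟨K ∪ K', fun k hk => ?_, {w | (fun g : K => w ⟨g, Finset.mem_union_left _ g.2⟩) ∈ W ∨
      (fun g : K' => w ⟨g, Finset.mem_union_right _ g.2⟩) ∈ W'}, ?_⟩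
    · rcases Finset.mem_union.1 hk with h | h
      · exact hK k h
      · exact hK' k h
    · rfl

theorem gen_eq (α : X → ι) (I : Set G) :
    gen Φ α I = MeasurableSpace.generateFrom (cyl Φ α I) := by
  apply le_antisymm
  · refine iSup₂_le fun g hg => ?_
    rintro _ ⟨s, _, rfl⟩
    refine MeasurableSpace.measurableSet_generateFrom ⟨{g}, by simpa using hg,
      {w | w ⟨g, Finset.mem_singleton_self g⟩ ∈ s}, rfl⟩
  · refine MeasurableSpace.generateFrom_le ?_
    rintro _ ⟨K, hK, W, rfl⟩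
    exact @FM.pi X (gen Φ α I) ι K _ _ (fun (g : K) x => α (Φ g x))
      (fun g s => gen_meas (hK g g.2) s) W

theorem approx_set [DecidableEq G] (hΦ : ∀ g, MeasurePreserving (Φ g) μ μ) {α : X → ι} (hα : FM α) {I : Set G}
    {B : Set X} (hB : MeasurableSet[gen Φ α I] B) {ε : ℝ} (hε : 0 < ε) :
    ∃ K : Finset G, (∀ k ∈ K, k ∈ I) ∧ Hc μ (ind B) (nmF Φ α K) ≤ ε := by
  obtain ⟨δ, hδ, hsmall⟩ := exists_small (μ := μ) hε
  have hle := gen_le hΦ hα I
  have hd := @Measure.MeasureDense.of_generateFrom_isSetAlgebra_finite X (gen Φ α I)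
    (μ.trim hle) (cyl Φ α I) _ (cyl_alg α I) (gen_eq α I)
  obtain ⟨C, ⟨K, hK, W, hW⟩, hC⟩ := @Measure.MeasureDense.approx X (gen Φ α I) (μ.trim hle)
    (cyl Φ α I) hd B hB (@measure_ne_top X (gen Φ α I) (μ.trim hle) _ B) δ hδ
  have hCm : MeasurableSet[gen Φ α I] C := @Measure.MeasureDense.measurable X (gen Φ α I)
    (μ.trim hle) (cyl Φ α I) hd C ⟨K, hK, W, hW⟩
  have hBX : MeasurableSet B := hle _ hB
  have hCX : MeasurableSet C := hle _ hCm
  rw [trim_measurableSet_eq hle (hB.symmDiff hCm)] at hC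
  have hD : μ.real (B ∆ C) < δ := by
    rw [measureReal_def]
    exact (ENNReal.lt_ofReal_iff_toReal_lt (measure_ne_top _ _)).1 hC
  refine ⟨K, hK, ?_⟩
  have hα' := fm_nm hΦ hα K
  have h1 := hc_anti (μ := μ) (fm_ind hBX) hα' (fm_ind hCX) (by
    intro x y e
    rw [ind_iff, hW]
    show nmF Φ α K x ∈ W ↔ nmF Φ α K y ∈ W
    rw [e])
  have h2 := hc_mono (μ := μ) (U := ind B) (fm_ind (hBX.symmDiff hCX)) (fm_ind hCX) (by
    intro x y e1 e2
    rw [ind_iff] at e1 e2 ⊢
    rw [Set.mem_symmDiff, Set.mem_symmDiff] at e1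
    tauto)
  exact h1.trans (h2.trans ((hc_le (fm_ind (hBX.symmDiff hCX)) (fm_ind hCX)).trans
    (hsmall _ (hBX.symmDiff hCX) hD)))

end Pool.Agent.W5h42.PK
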