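import Mathlib

/-!
# The Pinsker algebra of an action of an amenable group
-/

set_option autoImplicit false

open MeasureTheory Filter Topology

noncomputable section

namespace Pool.Agent.W5h42.PK

variable {X : Type*} {G : Type*} [Group G] [DecidableEq G]

/-- `F` is a Følner sequence of finite nonempty subsets of `G`: for every `k` the proportion of the
`g ∈ F N` with `k g ∉ F N` tends to zero. -/
def Folner (F : ℕ → Finset G) : Prop :=
  (∀ N, (F N).Nonempty) ∧ ∀ k : G,
    Tendsto (fun N : ℕ => (((F N).filter fun g => k * g ∉ F N).card : ℝ) / (F N).card) atTop (𝓝 0)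

/-- the Shannon entropy of the partition of `X` generated by the sets `(Φ g)⁻¹ B`, `g ∈ F` -/
def setEnt {mX : MeasurableSpace X} (μ : Measure X) (Φ : G →* Equiv.Perm X) (F : Finset G)
    (B : Set X) : ℝ :=
  ∑ w : F → Bool, Real.negMulLog (μ.real {x | ∀ g : F, (Φ g x ∈ B ↔ w g = true)})

/-- `B` is measurable and the partition `{B, Bᶜ}` has zero entropy per group element. -/
def ZeroSet {mX : MeasurableSpace X} (μ : Measure X) (Φ : G →* Equiv.Perm X)
    (F : ℕ → Finset G) (B : Set X) : Prop :=
  MeasurableSet B ∧ Tendsto (fun N : ℕ => setEnt μ Φ (F N) B / (F N).card) atTop (𝓝 0)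

/-- the Pinsker `σ`-algebra: the `σ`-algebra generated by the sets of zero entropy -/
def pinsker {mX : MeasurableSpace X} (μ : Measure X) (Φ : G →* Equiv.Perm X)
    (F : ℕ → Finset G) : MeasurableSpace X :=
  MeasurableSpace.generateFrom {B | ZeroSet μ Φ F B}

end Pool.Agent.W5h42.PK
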