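import Mathlib
import Pool.Agent.R546.MK.Ent

/-!
# Conditional entropy of finite-valued functions, names over finite sets of an ordered group
-/

set_option autoImplicit false
set_option linter.unusedSectionVars false

open MeasureTheory Filter Topology

noncomputable section

namespace Pool.Agent.W5h42.PK

open Pool.Agent.R546.MK (FM Hm law)

section basic

variable {X : Type*} [mX : MeasurableSpace X] {μ : Measure X} [IsProbabilityMeasure μ]
variable {α β γ : Type*} [Fintype α] [Fintype β] [Fintype γ]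

theorem hm_mono {U : X → α} {V : X → β} (hV : FM V) (h : ∀ x y, V x = V y → U x = U y) :
    Hm μ U ≤ Hm μ V := by
  classical
  have hX : Nonempty X := nonempty_of_isProbabilityMeasure μ
  let f : β → α := fun b => if hb : ∃ x, V x = b then U hb.choose else U hX.some
  have hf : ∀ x, f (V x) = U x := by
    intro x
    have hb : ∃ y, V y = V x := ⟨x, rfl⟩
    simp only [f]
    rw [dif_pos hb]
    exact h _ _ hb.choose_spec
  have h1 := Pool.Agent.R546.MK.Hm_le (μ := μ) hV f
  simp only [hf] at h1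
  exact h1

theorem hm_congr {U : X → α} {V : X → β} (hU : FM U) (hV : FM V)
    (h : ∀ x y, U x = U y ↔ V x = V y) : Hm μ U = Hm μ V :=
  le_antisymm (hm_mono hV fun x y e => (h x y).2 e) (hm_mono hU fun x y e => (h x y).1 e)

/-- conditional entropy -/
def Hc (μ : Measure X) (U : X → α) (V : X → β) : ℝ := Hm μ (fun x => (U x, V x)) - Hm μ V

theorem hc_anti {U : X → α} {V : X → β} {W : X → γ} (hU : FM U) (hV : FM V) (hW : FM W)
    (h : ∀ x y, V x = V y → W x = W y) : Hc μ U V ≤ Hc μ U W := by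
  have h1 := Pool.Agent.R546.MK.Hm_submod (μ := μ) hU hV hW
  have e1 : Hm μ (fun x => (U x, V x, W x)) = Hm μ (fun x => (U x, V x)) :=
    hm_congr (hU.pair (hV.pair hW)) (hU.pair hV) (by
      intro x y
      simp only [Prod.mk.injEq]
      exact ⟨fun ⟨a, b, _⟩ => ⟨a, b⟩, fun ⟨a, b⟩ => ⟨a, b, h _ _ b⟩⟩)
  have e2 : Hm μ (fun x => (V x, W x)) = Hm μ V :=
    hm_congr (hV.pair hW) hV (by
      intro x y
      simp only [Prod.mk.injEq]
      exact ⟨fun ⟨a, _⟩ => a, fun a => ⟨a, h _ _ a⟩⟩)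
  rw [e1, e2] at h1
  unfold Hc
  linarith

theorem hc_nonneg {U : X → α} {V : X → β} (hU : FM U) (hV : FM V) : 0 ≤ Hc μ U V := by
  have h := hm_mono (μ := μ) (U := V) (hU.pair hV) (by
    intro x y
    simp only [Prod.mk.injEq]
    exact fun h => h.2)
  unfold Hc
  linarith

theorem hc_le {U : X → α} {V : X → β} (hU : FM U) (hV : FM V) : Hc μ U V ≤ Hm μ U := by
  have h := Pool.Agent.R546.MK.Hm_subadd (μ := μ) hU hV
  unfold Hc
  linarith

theorem hc_mono {U : X → α} {U' : X → β} {V : X → γ} (hU' : FM U') (hV : FM V)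
    (h : ∀ x y, U' x = U' y → V x = V y → U x = U y) : Hc μ U V ≤ Hc μ U' V := by
  have := hm_mono (μ := μ) (U := fun x => (U x, V x)) (hU'.pair hV) (by
    intro x y
    simp only [Prod.mk.injEq]
    exact fun ⟨a, b⟩ => ⟨h _ _ a b, b⟩)
  unfold Hc
  linarith

theorem hc_pair {U : X → α} {U' : X → β} {V : X → γ} (hU : FM U) (hU' : FM U') (hV : FM V) :
    Hc μ (fun x => (U x, U' x)) V ≤ Hc μ U V + Hc μ U' V := by
  have h1 := hc_anti (μ := μ) hU (hU'.pair hV) hV (by
    intro x y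
    simp only [Prod.mk.injEq]
    exact fun h => h.2)
  have e1 : Hm μ (fun x => ((U x, U' x), V x)) = Hm μ (fun x => (U x, U' x, V x)) :=
    hm_congr ((hU.pair hU').pair hV) (hU.pair (hU'.pair hV)) (by
      intro x y
      simp only [Prod.mk.injEq]
      exact ⟨fun ⟨⟨a, b⟩, c⟩ => ⟨a, b, c⟩, fun ⟨a, b, c⟩ => ⟨⟨a, b⟩, c⟩⟩)
  unfold Hc at h1 ⊢
  rw [e1]
  linarith

theorem fm_const {δ : Type*} (c : δ) : FM fun _ : X => c := by
  intro s
  by_cases h : c ∈ s
  · have : (fun _ : X => c) ⁻¹' s = Set.univ := by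
      ext x
      exact ⟨fun _ => trivial, fun _ => h⟩
    rw [this]
    exact MeasurableSet.univ
  · have : (fun _ : X => c) ⁻¹' s = ∅ := by
      ext x
      exact ⟨fun h' => h h', fun h' => absurd h' (Set.notMem_empty x)⟩
    rw [this]
    exact MeasurableSet.empty

theorem hm_nonneg {U : X → α} (hU : FM U) : 0 ≤ Hm μ U := by
  have h := hm_mono (μ := μ) (U := fun _ : X => ()) hU fun _ _ _ => rfl
  rw [Pool.Agent.R546.MK.Hm_const] at h
  exact h

end basic

section names

variable {X : Type*} [mX : MeasurableSpace X] {μ : Measure X} [IsProbabilityMeasure μ]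
variable {G : Type*} [Group G] {Φ : G →* Equiv.Perm X}
variable {ι κ : Type*} [Fintype ι] [Fintype κ]

/-- the name of `x` over `F` -/
def nmF {ι : Type*} (Φ : G →* Equiv.Perm X) (α : X → ι) (F : Finset G) (x : X) : F → ι :=
  fun g => α (Φ g x)

theorem nm_iff {ι : Type*} {α : X → ι} {F : Finset G} {x y : X} :
    nmF Φ α F x = nmF Φ α F y ↔ ∀ g ∈ F, α (Φ g x) = α (Φ g y) := by
  unfold nmF
  rw [funext_iff]
  exact ⟨fun h g hg => h ⟨g, hg⟩, fun h g => h g g.2⟩

theorem phi_mul (g h : G) (x : X) : Φ (g * h) x = Φ g (Φ h x) := by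
  rw [map_mul, Equiv.Perm.mul_apply]

theorem fm_shift (hΦ : ∀ g, MeasurePreserving (Φ g) μ μ) {U : X → ι} (hU : FM U) (g : G) :
    FM fun x => U (Φ g x) := fun s => (hΦ g).measurable (hU s)

theorem fm_nm (hΦ : ∀ g, MeasurePreserving (Φ g) μ μ) {α : X → ι} (hα : FM α) (F : Finset G) :
    FM (nmF Φ α F) :=
  FM.pi (X := fun (g : F) x => α (Φ g x)) fun g => fm_shift hΦ hα g

theorem hm_shift (hΦ : ∀ g, MeasurePreserving (Φ g) μ μ) {U : X → ι} (hU : FM U) (g : G) :
    Hm μ (fun x => U (Φ g x)) = Hm μ U := by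
  unfold Hm
  congr 1
  funext a
  unfold law
  have h := (hΦ g).measure_preimage (hU {a}).nullMeasurableSet
  rw [measureReal_def, measureReal_def, ← h]
  rfl

theorem hc_shift (hΦ : ∀ g, MeasurePreserving (Φ g) μ μ) {U : X → ι} (hU : FM U) {V : X → κ}
    (hV : FM V) (g : G) : Hc μ (fun x => U (Φ g x)) (fun x => V (Φ g x)) = Hc μ U V := by
  unfold Hc
  rw [hm_shift hΦ hV g]
  have := hm_shift hΦ (hU.pair hV) g
  rw [← this]

variable [DecidableEq G]

theorem hc_names {β : X → κ} {V : X → ι} (hΦ : ∀ g, MeasurePreserving (Φ g) μ μ) (hβ : FM β)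
    (hV : FM V) {c : G → ℝ} (F : Finset G) (h : ∀ g ∈ F, Hc μ (fun x => β (Φ g x)) V ≤ c g) :
    Hc μ (nmF Φ β F) V ≤ ∑ g ∈ F, c g := by
  induction F using Finset.induction_on with
  | empty =>
    rw [Finset.sum_empty]
    have h1 := hc_mono (μ := μ) (U := nmF Φ β ∅) (U' := fun _ => ()) (V := V)
      (fm_const ()) hV (fun x y _ _ => nm_iff.2 fun g hg => absurd hg (Finset.notMem_empty g))
    refine h1.trans ?_
    refine (hc_le (fm_const ()) hV).trans ?_
    rw [Pool.Agent.R546.MK.Hm_const]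
  | insert a s ha ih =>
    rw [Finset.sum_insert ha]
    have h1 := hc_mono (μ := μ) (U := nmF Φ β (insert a s))
      (U' := fun x => (β (Φ a x), nmF Φ β s x)) (V := V)
      ((fm_shift hΦ hβ a).pair (fm_nm hΦ hβ s)) hV (by
        intro x y e _
        simp only [Prod.mk.injEq, nm_iff] at e ⊢
        intro g hg
        rcases Finset.mem_insert.1 hg with rfl | hg
        · exact e.1
        · exact e.2 g hg)
    refine h1.trans ((hc_pair (fm_shift hΦ hβ a) (fm_nm hΦ hβ s) hV).trans ?_)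
    exact add_le_add (h a (Finset.mem_insert_self _ _))
      (ih fun g hg => h g (Finset.mem_insert_of_mem hg))

/-- upper bound for the entropy of the names of `β` given those of `α` -/
theorem upper_given {α : X → ι} {β : X → κ} (hΦ : ∀ g, MeasurePreserving (Φ g) μ μ)
    (hα : FM α) (hβ : FM β) (K F : Finset G) :
    Hc μ (nmF Φ β F) (nmF Φ α F) ≤
      ∑ g ∈ F, if ∀ k ∈ K, k * g ∈ F then Hc μ β (nmF Φ α K) else Hm μ β := by
  refine hc_names hΦ hβ (fm_nm hΦ hα F) F fun g _ => ?_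
  split_ifs with h
  · have h1 := hc_anti (μ := μ) (fm_shift hΦ hβ g) (fm_nm hΦ hα F)
      (fm_shift hΦ (fm_nm hΦ hα K) g) (by
        intro x y e
        rw [nm_iff] at e ⊢
        intro k hk
        rw [← phi_mul, ← phi_mul]
        exact e _ (h k hk))
    refine h1.trans (le_of_eq ?_)
    exact hc_shift hΦ hβ (fm_nm hΦ hα K) g
  · refine (hc_le (fm_shift hΦ hβ g) (fm_nm hΦ hα F)).trans (le_of_eq ?_)
    exact hm_shift hΦ hβ g

end names

section order

variable {X : Type*} [mX : MeasurableSpace X] {μ : Measure X} [IsProbabilityMeasure μ]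
variable {G : Type*} [Group G] [LinearOrder G] {Φ : G →* Equiv.Perm X}
variable {ι κ : Type*} [Fintype ι] [Fintype κ]

theorem step_lower (hord : ∀ a b c : G, a < b → a * c < b * c)
    (hΦ : ∀ g, MeasurePreserving (Φ g) μ μ) {α : X → ι} (hα : FM α) {h : ℝ}
    (hh : ∀ K : Finset G, (∀ k ∈ K, k < 1) → h ≤ Hc μ α (nmF Φ α K)) {s : Finset G} {a : G}
    (hs : ∀ g ∈ s, g < a) :
    h ≤ Hm μ (nmF Φ α (insert a s)) - Hm μ (nmF Φ α s) := by
  set K : Finset G := s.image (· * a⁻¹) with hKdef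
  have hK : ∀ k ∈ K, k < 1 := by
    intro k hk
    obtain ⟨g, hg, rfl⟩ := Finset.mem_image.1 hk
    have := hord g a a⁻¹ (hs g hg)
    rwa [mul_inv_cancel] at this
  have hsK : ∀ {x y : X}, (nmF Φ α K (Φ a x) = nmF Φ α K (Φ a y)) ↔
      nmF Φ α s x = nmF Φ α s y := by
    intro x y
    rw [nm_iff, nm_iff]
    constructor
    · intro e g hg
      have := e (g * a⁻¹) (Finset.mem_image_of_mem _ hg)
      rwa [← phi_mul, ← phi_mul, inv_mul_cancel_right] at this
    · intro e k hk
      obtain ⟨g, hg, rfl⟩ := Finset.mem_image.1 hk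
      rw [← phi_mul, ← phi_mul, inv_mul_cancel_right]
      exact e g hg
  have h1 : Hm μ (nmF Φ α (insert a s)) = Hm μ (fun x => (α (Φ a x), nmF Φ α K (Φ a x))) :=
    hm_congr (fm_nm hΦ hα _) ((fm_shift hΦ hα a).pair (fm_shift hΦ (fm_nm hΦ hα K) a)) (by
      intro x y
      rw [Prod.mk.injEq, hsK, nm_iff, nm_iff]
      constructor
      · intro e
        exact ⟨e a (Finset.mem_insert_self _ _), fun g hg => e g (Finset.mem_insert_of_mem hg)⟩
      · rintro ⟨e1, e2⟩ g hg
        rcases Finset.mem_insert.1 hg with rfl | hg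
        · exact e1
        · exact e2 g hg)
  have h2 : Hm μ (nmF Φ α s) = Hm μ (fun x => nmF Φ α K (Φ a x)) :=
    hm_congr (fm_nm hΦ hα _) (fm_shift hΦ (fm_nm hΦ hα K) a) (fun x y => hsK.symm)
  have h3 := hc_shift hΦ hα (fm_nm hΦ hα K) a
  have h4 := hh K hK
  rw [h1, h2]
  rw [← h3] at h4
  exact h4

theorem lower (hord : ∀ a b c : G, a < b → a * c < b * c)
    (hΦ : ∀ g, MeasurePreserving (Φ g) μ μ) {α : X → ι} (hα : FM α) {h : ℝ}
    (hh : ∀ K : Finset G, (∀ k ∈ K, k < 1) → h ≤ Hc μ α (nmF Φ α K)) {K : Finset G} (F : Finset G)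
    (hFK : ∀ g ∈ F, ∀ k ∈ K, k < g) :
    F.card * h ≤ Hm μ (nmF Φ α (F ∪ K)) - Hm μ (nmF Φ α K) := by
  induction F using Finset.induction_on_max with
  | empty =>
    rw [Finset.empty_union]
    simp
  | insert a s hs ih =>
    have ha : a ∉ s := fun h => lt_irrefl _ (hs a h)
    have ih' := ih fun g hg k hk => hFK g (Finset.mem_insert_of_mem hg) k hk
    have h1 := step_lower hord hΦ hα hh (s := s ∪ K) (a := a) (by
      intro g hg
      rcases Finset.mem_union.1 hg with hg | hg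
      · exact hs g hg
      · exact hFK a (Finset.mem_insert_self _ _) g hg)
    rw [Finset.card_insert_of_notMem ha, Finset.insert_union]
    push_cast
    linarith

theorem upper (hord : ∀ a b c : G, a < b → a * c < b * c)
    (hΦ : ∀ g, MeasurePreserving (Φ g) μ μ) {α : X → ι} (hα : FM α) {K : Finset G}
    (hK : ∀ k ∈ K, k < 1) (F : Finset G) :
    Hm μ (nmF Φ α F) ≤
      ∑ g ∈ F, if ∀ k ∈ K, k * g ∈ F then Hc μ α (nmF Φ α K) else Hm μ α := by
  induction F using Finset.induction_on_max with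
  | empty =>
    rw [Finset.sum_empty]
    have h1 := hm_mono (μ := μ) (U := nmF Φ α ∅) (V := fun _ : X => ()) (fm_const ())
      (fun x y _ => nm_iff.2 fun g hg => absurd hg (Finset.notMem_empty g))
    rwa [Pool.Agent.R546.MK.Hm_const] at h1
  | insert a s hs ih =>
    have ha : a ∉ s := fun h => lt_irrefl _ (hs a h)
    have hlt : ∀ k ∈ K, ∀ g : G, k * g < g := by
      intro k hk g
      have := hord k 1 g (hK k hk)
      rwa [one_mul] at this
    rw [Finset.sum_insert ha]
    have e1 : Hm μ (nmF Φ α (insert a s)) = Hm μ (fun x => (α (Φ a x), nmF Φ α s x)) :=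
      hm_congr (fm_nm hΦ hα _) ((fm_shift hΦ hα a).pair (fm_nm hΦ hα s)) (by
        intro x y
        rw [Prod.mk.injEq, nm_iff, nm_iff]
        constructor
        · intro e
          exact ⟨e a (Finset.mem_insert_self _ _), fun g hg => e g (Finset.mem_insert_of_mem hg)⟩
        · rintro ⟨e1, e2⟩ g hg
          rcases Finset.mem_insert.1 hg with rfl | hg
          · exact e1
          · exact e2 g hg)
    have e2 : Hm μ (nmF Φ α (insert a s)) =
        Hc μ (fun x => α (Φ a x)) (nmF Φ α s) + Hm μ (nmF Φ α s) := by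
      rw [e1]
      unfold Hc
      ring
    have e3 : ∑ g ∈ s, (if ∀ k ∈ K, k * g ∈ insert a s then Hc μ α (nmF Φ α K) else Hm μ α) =
        ∑ g ∈ s, (if ∀ k ∈ K, k * g ∈ s then Hc μ α (nmF Φ α K) else Hm μ α) := by
      refine Finset.sum_congr rfl fun g hg => ?_
      have : (∀ k ∈ K, k * g ∈ insert a s) ↔ ∀ k ∈ K, k * g ∈ s := by
        refine forall₂_congr fun k hk => ?_
        rw [Finset.mem_insert]
        have h1 := (hlt k hk g).trans (hs g hg)
        exact ⟨fun h => h.resolve_left h1.ne, Or.inr⟩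
      simp only [this]
    rw [e2, e3]
    refine add_le_add ?_ ih
    split_ifs with h
    · have h1 := hc_anti (μ := μ) (fm_shift hΦ hα a) (fm_nm hΦ hα s)
        (fm_shift hΦ (fm_nm hΦ hα K) a) (by
          intro x y e
          rw [nm_iff] at e ⊢
          intro k hk
          rw [← phi_mul, ← phi_mul]
          exact e _ ((Finset.mem_insert.1 (h k hk)).resolve_left (hlt k hk a).ne))
      refine h1.trans (le_of_eq ?_)
      exact hc_shift hΦ hα (fm_nm hΦ hα K) a
    · refine (hc_le (fm_shift hΦ hα a) (fm_nm hΦ hα s)).trans (le_of_eq ?_)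
      exact hm_shift hΦ hα a

/-- lower bound for the joint entropy -/
theorem joint (hord : ∀ a b c : G, a < b → a * c < b * c)
    (hΦ : ∀ g, MeasurePreserving (Φ g) μ μ) {α : X → ι} (hα : FM α) {β : X → κ} (hβ : FM β) {h : ℝ}
    (hh : ∀ K : Finset G, (∀ k ∈ K, k < 1) → h ≤ Hc μ α (nmF Φ α K)) {K : Finset G} (F : Finset G)
    (hFK : ∀ g ∈ F, ∀ k ∈ K, k < g) :
    Hm μ (nmF Φ β F) + F.card * h ≤
      Hc μ (nmF Φ β F) (nmF Φ α F) + Hm μ (nmF Φ α F) + Hc μ (nmF Φ β F) (nmF Φ α K) := by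
  have hA := fm_nm hΦ hα F
  have hB := fm_nm hΦ hβ F
  have hC := fm_nm hΦ hα K
  have h1 := lower hord hΦ hα hh F hFK
  have e1 : Hm μ (nmF Φ α (F ∪ K)) = Hm μ (fun x => (nmF Φ α F x, nmF Φ α K x)) :=
    hm_congr (fm_nm hΦ hα _) (hA.pair hC) (by
      intro x y
      rw [Prod.mk.injEq, nm_iff, nm_iff, nm_iff]
      constructor
      · intro e
        exact ⟨fun g hg => e g (Finset.mem_union_left _ hg),
          fun g hg => e g (Finset.mem_union_right _ hg)⟩
      · rintro ⟨e1, e2⟩ g hg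
        rcases Finset.mem_union.1 hg with hg | hg
        · exact e1 g hg
        · exact e2 g hg)
  -- `H(A|B) ≥ H(A|B,C)`
  have h2 := hc_anti (μ := μ) hA (hB.pair hC) hB (by
    intro x y
    simp only [Prod.mk.injEq]
    exact fun h => h.1)
  have h3 : Hm μ (fun x => (nmF Φ α F x, nmF Φ α K x)) ≤
      Hm μ (fun x => (nmF Φ α F x, nmF Φ β F x, nmF Φ α K x)) :=
    hm_mono (hA.pair (hB.pair hC)) (by
      intro x y
      simp only [Prod.mk.injEq]
      exact fun ⟨a, _, c⟩ => ⟨a, c⟩)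
  have e2 : Hm μ (fun x => (nmF Φ α F x, nmF Φ β F x)) =
      Hm μ (fun x => (nmF Φ β F x, nmF Φ α F x)) :=
    hm_congr (hA.pair hB) (hB.pair hA) (by
      intro x y
      simp only [Prod.mk.injEq]
      exact ⟨fun ⟨a, b⟩ => ⟨b, a⟩, fun ⟨a, b⟩ => ⟨b, a⟩⟩)
  unfold Hc at h2 ⊢
  rw [e1] at h1
  rw [e2] at h2
  linarith

end order

end Pool.Agent.W5h42.PK
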