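import Pool.Agent.W5h42.PK.Tail
import Pool.Agent.W5h42.KW.Poly

/-!
# The Kolmogorov extension given by a finite partition
-/

set_option autoImplicit false
set_option linter.unusedSectionVars false

open MeasureTheory Filter Topology
open scoped ENNReal

noncomputable section

namespace Pool.Agent.W5h42.PK

open Pool.Agent.R546.MK (FM Hm law)
open Pool.Agent.TH784.KE Pool.Agent.W5h42.KW
open Pool.Agent.W761.Box (BM)

variable {X : Type*} [mX : MeasurableSpace X] {μ : Measure X} [IsProbabilityMeasure μ]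
variable {G : Type*} [Group G] {Φ : G →* Equiv.Perm X}
variable {ι : Type*} [Fintype ι] {ℓ : G → ℝ}

/-- the past of the partition `α` -/
@[reducible] def past (Φ : G →* Equiv.Perm X) (ℓ : G → ℝ) (α : X → ι) : MeasurableSpace X :=
  gen Φ α {g | ℓ g ≤ 0}

/-- the remote past of the partition `α` -/
@[reducible] def tail (Φ : G →* Equiv.Perm X) (ℓ : G → ℝ) (α : X → ι) : MeasurableSpace X :=
  ⨅ a, cm (past Φ ℓ α) Φ a

theorem comap_shift (α : X → ι) (g a : G) :
    (MeasurableSpace.comap (fun x => α (Φ g x)) ⊤).comap (Φ a : X → X) =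
      MeasurableSpace.comap (fun x => α (Φ (g * a) x)) ⊤ := by
  rw [MeasurableSpace.comap_comp]
  congr 1
  funext x
  show α (Φ g (Φ a x)) = α (Φ (g * a) x)
  rw [phi_mul]

theorem cm_gen (hℓ : ∀ g h, ℓ (g * h) = ℓ g + ℓ h) (α : X → ι) (a : G) :
    cm (past Φ ℓ α) Φ a = gen Φ α {g | ℓ g ≤ ℓ a} := by
  have h1 : ℓ 1 = 0 := by
    have := hℓ 1 1
    rw [mul_one] at this
    linarith
  have hinv : ∀ g, ℓ g⁻¹ = -ℓ g := by
    intro g
    have := hℓ g g⁻¹
    rw [mul_inv_cancel, h1] at this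
    linarith
  unfold cm past gen
  rw [MeasurableSpace.comap_iSup]
  simp_rw [MeasurableSpace.comap_iSup]
  apply le_antisymm
  · refine iSup₂_le fun g hg => ?_
    rw [comap_shift]
    refine le_iSup₂_of_le (g * a) ?_ le_rfl
    have hg' : ℓ g ≤ 0 := hg
    show ℓ (g * a) ≤ ℓ a
    rw [hℓ]
    linarith
  · refine iSup₂_le fun g hg => ?_
    have hg' : ℓ g ≤ ℓ a := hg
    refine le_iSup₂_of_le (g * a⁻¹) (show ℓ (g * a⁻¹) ≤ 0 by rw [hℓ, hinv]; linarith) ?_
    rw [comap_shift, inv_mul_cancel_right]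

theorem kext (hΦ : ∀ g, MeasurePreserving (Φ g) μ μ) (hℓ : ∀ g h, ℓ (g * h) = ℓ g + ℓ h)
    {α : X → ι} (hα : FM α) :
    KExt (mX := gen Φ α Set.univ) (μ.trim (gen_le hΦ hα Set.univ)) (past Φ ℓ α) (tail Φ ℓ α)
      Φ ℓ where
  fl := by
    intro a
    have hm : Measurable[gen Φ α Set.univ, gen Φ α Set.univ] (Φ a : X → X) := by
      rw [measurable_iff_comap_le]
      unfold gen
      rw [MeasurableSpace.comap_iSup]
      simp_rw [MeasurableSpace.comap_iSup]
      refine iSup₂_le fun g _ => ?_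
      rw [comap_shift]
      exact le_iSup₂_of_le (g * a) trivial le_rfl
    refine @MeasurePreserving.mk X X (gen Φ α Set.univ) (gen Φ α Set.univ) _ _ _ hm ?_
    refine @Measure.ext X (gen Φ α Set.univ) _ _ fun B hB => ?_
    rw [@Measure.map_apply X X (gen Φ α Set.univ) (gen Φ α Set.univ) _ _ hm B hB,
      trim_measurableSet_eq _ hB, trim_measurableSet_eq _ (hm hB)]
    exact (hΦ a).measure_preimage (gen_le hΦ hα _ _ hB).nullMeasurableSet
  filt := by
    refine ⟨hℓ, gen_mono (Set.subset_univ _), fun a ha => ?_⟩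
    have := cm_gen hℓ α a (Φ := Φ)
    unfold cm at this
    rw [this]
    exact gen_mono fun g hg => le_trans (show ℓ g ≤ ℓ a from hg) ha
  base := by
    refine ⟨?_, fun a => ?_⟩
    · refine (iInf_le _ (1 : G)).trans (le_of_eq ?_)
      rw [cm_gen hℓ]
      have h1 : ℓ 1 = 0 := by
        have := hℓ 1 1
        rw [mul_one] at this
        linarith
      rw [h1]
    · intro B hB
      rw [MeasurableSpace.measurableSet_iInf] at hB ⊢
      intro b
      have e : b = (b * a⁻¹) * a := by group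
      rw [e, cm_mul]
      exact ⟨B, hB _, rfl⟩
  gen := by
    intro B hB
    refine ⟨B, ?_, ae_eq_refl _⟩
    have hle : gen Φ α Set.univ ≤ ⨆ a, cm (past Φ ℓ α) Φ a := by
      refine iSup₂_le fun g _ => ?_
      refine le_trans ?_ (le_iSup _ g)
      rw [cm_gen hℓ]
      exact le_iSup₂_of_le g (le_refl (ℓ g)) le_rfl
    exact hle _ hB
  tail := by
    intro B hB
    exact ⟨B, (MeasurableSpace.measurableSet_iInf).2 hB, ae_eq_refl _⟩

theorem tail_le (hΦ : ∀ g, MeasurePreserving (Φ g) μ μ) (hℓ : ∀ g h, ℓ (g * h) = ℓ g + ℓ h)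
    {α : X → ι} (hα : FM α) : tail Φ ℓ α ≤ mX := by
  refine (iInf_le _ (1 : G)).trans ?_
  rw [cm_gen hℓ]
  exact gen_le hΦ hα _

theorem tail_sets (hℓ : ∀ g h, ℓ (g * h) = ℓ g + ℓ h) {s₀ : G} (hs₀ : 0 < ℓ s₀) {α : X → ι}
    {B : Set X} (hB : MeasurableSet[tail Φ ℓ α] B) (t : ℝ) :
    MeasurableSet[gen Φ α {g | ℓ g ≤ t}] B := by
  have h1 : ℓ 1 = 0 := by
    have := hℓ 1 1
    rw [mul_one] at this
    linarith
  have hpow : ∀ n : ℕ, ℓ (s₀⁻¹ ^ n) = -(n * ℓ s₀) := by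
    intro n
    induction n with
    | zero => simp [h1]
    | succ n ih =>
      have hi : ℓ s₀⁻¹ = -ℓ s₀ := by
        have := hℓ s₀ s₀⁻¹
        rw [mul_inv_cancel, h1] at this
        linarith
      rw [pow_succ, hℓ, ih, hi]
      push_cast
      ring
  obtain ⟨n, hn⟩ := exists_nat_ge (-t / ℓ s₀)
  rw [div_le_iff₀ hs₀] at hn
  have h2 := (MeasurableSpace.measurableSet_iInf).1 hB (s₀⁻¹ ^ n)
  rw [cm_gen hℓ] at h2
  refine gen_mono ?_ _ h2
  intro g hg
  have hg' : ℓ g ≤ ℓ (s₀⁻¹ ^ n) := hg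
  rw [hpow] at hg'
  show ℓ g ≤ t
  linarith

theorem tail_le_pinsker [LinearOrder G] (hord : ∀ a b c : G, a < b → a * c < b * c)
    (hΦ : ∀ g, MeasurePreserving (Φ g) μ μ) {F : ℕ → Finset G} (hF : Folner F)
    (hℓ : ∀ g h, ℓ (g * h) = ℓ g + ℓ h) (hℓo : ∀ g h, ℓ g < ℓ h → g < h) {s₀ : G}
    (hs₀ : 0 < ℓ s₀) {α : X → ι} (hα : FM α) : tail Φ ℓ α ≤ pinsker μ Φ F := fun _ hB =>
  MeasurableSpace.measurableSet_generateFrom
    (tail_zero hord hΦ hF hℓ hℓo hα fun t => tail_sets hℓ hs₀ hB t)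

theorem pinsker_le [DecidableEq G] (F : ℕ → Finset G) : pinsker μ Φ F ≤ mX :=
  MeasurableSpace.generateFrom_le fun _ hB => hB.1

theorem aeconv_trim {M : MeasurableSpace X} (hM : M ≤ mX) {φ : ℤ → X → X}
    (hφ : ∀ n, Measurable[M, M] (φ n)) (h : AEConv μ φ) :
    @AEConv X M (μ.trim hM) φ := by
  intro u hu hb
  have h1 := h u (hu.mono hM le_rfl) hb
  have hms : ∀ ψ : ℕ → X → X, (∀ n, Measurable[M, M] (ψ n)) →
      MeasurableSet[M] {x | ∃ L : ℝ, Tendsto (fun N : ℕ =>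
        (∑ n ∈ Finset.range N, u (ψ n x)) / N) atTop (𝓝 L)} := by
    intro ψ hψ
    refine @MeasureTheory.measurableSet_exists_tendsto _ _ _ M _ _ _ _ _ _ atTop _
      (fun N x => (∑ n ∈ Finset.range N, u (ψ n x)) / (N : ℝ)) ?_
    intro N
    refine Measurable.div_const ?_ _
    exact Finset.measurable_fun_sum _ fun n _ => hu.comp (hψ n)
  have h2 := hms (fun n => φ n) fun n => hφ n
  have h3 := hms (fun n => φ (-(n : ℤ))) fun n => hφ _
  have h4 := h2.inter h3
  rw [ae_iff] at h1 ⊢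
  rw [← h1]
  exact trim_measurableSet_eq hM h4.compl

variable {J : Type*} [DecidableEq J] [Fintype J]

/-- **Functions measurable with respect to a finite partition.** -/
theorem one_partition (hΦ : ∀ g, MeasurePreserving (Φ g) μ μ)
    (hℓ : ∀ g h, ℓ (g * h) = ℓ g + ℓ h) {α : X → ι} (hα : FM α)
    {q : J → ℤ → G} {lam : J → Polynomial ℝ}
    (hlam : ∀ j n, ℓ (q j n) = (lam j).eval (n : ℝ))
    (hgood : ∀ j, (∃ b : G, ∀ n, q j n = b ^ n) ∨ AEConv μ fun n => (Φ (q j n) : X → X))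
    {S : Finset J} (hS0 : ∀ v ∈ S, 0 < (lam v).natDegree)
    (hS1 : ∀ v ∈ S, ∀ w ∈ S, v ≠ w → 0 < (lam v - lam w).natDegree)
    (hS2 : ∀ v ∈ S, ∀ u ∉ S, Tendsto
      (fun n : ℤ => (lam v).eval (n : ℝ) - (lam u).eval (n : ℝ)) cofinite atTop)
    (φ : J → ι → ℂ) :
    ∃ e : J → X → ℂ, (∀ j ∈ S, e j =ᵐ[μ] μ[fun x => φ j (α x) | tail Φ ℓ α]) ∧
      (∀ j ∉ S, e j = fun x => φ j (α x)) ∧
      ∀ᵐ x ∂μ, ∀ w : ℤ → ℂ, (∃ C : ℝ, ∀ n, ‖w n‖ ≤ C) → Deterministic w →
        Tendsto (fun N : ℕ => ((2 * N + 1 : ℕ) : ℂ)⁻¹ *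
          ∑ n ∈ Finset.Icc (-(N : ℤ)) (N : ℤ), w n * (∏ j, φ j (α (Φ (q j n) x)) -
            ∏ j, e j (Φ (q j n) x))) atTop (𝓝 0) := by
  classical
  have hM := gen_le hΦ hα Set.univ
  have hK := kext (ℓ := ℓ) hΦ hℓ hα
  have hT : tail Φ ℓ α ≤ gen Φ α Set.univ := hK.base.le.trans hK.filt.le
  have hφm : ∀ j, Measurable[gen Φ α Set.univ] fun x => φ j (α x) := by
    intro j s _
    have h1 := gen_meas (Φ := Φ) (α := α) (Set.mem_univ (1 : G)) (φ j ⁻¹' s)
    rw [map_one] at h1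
    exact h1
  have hφb : ∀ j, ∃ C : ℝ, ∀ x, ‖φ j (α x)‖ ≤ C := fun j =>
    ⟨∑ i, ‖φ j i‖, fun x => Finset.single_le_sum (f := fun i => ‖φ j i‖)
      (fun i _ => norm_nonneg _) (Finset.mem_univ (α x))⟩
  have hBM : ∀ j, @BM X mX fun x => φ j (α x) := fun j => ⟨(hφm j).mono hM le_rfl, hφb j⟩
  choose e he heT hee hfe using fun j => exists_cond (μ := μ) (tail_le hΦ hℓ hα) (hBM j)
  refine ⟨fun j => if j ∈ S then e j else fun x => φ j (α x), fun j hj => ?_, fun j hj => ?_, ?_⟩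
  · simp only [hj, if_true]
    exact hee j
  · simp only [hj, if_false]
  · have hprob : @IsProbabilityMeasure X (gen Φ α Set.univ) (μ.trim hM) :=
      @IsProbabilityMeasure.mk X (gen Φ α Set.univ) _ (by
        rw [trim_measurableSet_eq hM MeasurableSet.univ]
        exact measure_univ)
    have hflm : ∀ g, Measurable[gen Φ α Set.univ, gen Φ α Set.univ] (Φ g : X → X) := fun g =>
      @MeasurePreserving.measurable X X (gen Φ α Set.univ) (gen Φ α Set.univ) _ _ _ (hK.fl g)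
    have hmain := @two_sided_ww X (past Φ ℓ α) (tail Φ ℓ α) (gen Φ α Set.univ) (μ.trim hM) hprob
      G _ Φ ℓ J _ _ hK q lam hlam (fun j => (hgood j).imp id fun h =>
        aeconv_trim hM (fun n => hflm (q j n)) h) S hS0 hS1 hS2
      (fun j x => φ j (α x)) (fun j => if j ∈ S then e j else fun x => φ j (α x))
      (fun j => ⟨hφm j, hφb j⟩)
      (fun j hj => by
        simp only [hj, if_true]
        exact ⟨(heT j).mono hT le_rfl, (he j).2⟩)
      (fun j hj => by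
        simp only [hj, if_true]
        exact heT j)
      (fun j hj => by simp only [hj, if_false])
      (fun j hj B hB => by
        simp only [hj, if_true]
        have h1 := hfe j B hB
        rw [← h1]
        have h2 : MeasurableSet[gen Φ α Set.univ] B := hT _ hB
        refine (setIntegral_trim hM ?_ h2).symm
        exact ((hφm j).sub ((heT j).mono hT le_rfl)).stronglyMeasurable)
    exact ae_of_ae_trim hM hmain

end Pool.Agent.W5h42.PK
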