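import Pool.Agent.W5h42.PK.Ext

/-!
# The Pinsker factor is characteristic
-/

set_option autoImplicit false
set_option linter.unusedSectionVars false

open MeasureTheory Filter Topology
open scoped ENNReal

noncomputable section

namespace Pool.Agent.W5h42.PK

open Pool.Agent.R546.MK (FM Hm law)
open Pool.Agent.TH784.KE Pool.Agent.W5h42.KW
open Pool.Agent.W761.Box (BM)

theorem prod_diff_c {J : Type*} [DecidableEq J] (s : Finset J) {a b : J → ℂ} {C : ℝ}
    (hC : 1 ≤ C) (ha : ∀ i ∈ s, ‖a i‖ ≤ C) (hb : ∀ i ∈ s, ‖b i‖ ≤ C) :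
    ‖∏ i ∈ s, a i - ∏ i ∈ s, b i‖ ≤ C ^ s.card * ∑ i ∈ s, ‖a i - b i‖ := by
  induction s using Finset.induction_on with
  | empty => simp
  | insert i s hi ih =>
    have ih' := ih (fun j hj => ha j (Finset.mem_insert_of_mem hj))
      (fun j hj => hb j (Finset.mem_insert_of_mem hj))
    rw [Finset.prod_insert hi, Finset.prod_insert hi, Finset.sum_insert hi,
      Finset.card_insert_of_notMem hi, pow_succ]
    have e : a i * ∏ j ∈ s, a j - b i * ∏ j ∈ s, b j =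
        (a i - b i) * ∏ j ∈ s, a j + b i * (∏ j ∈ s, a j - ∏ j ∈ s, b j) := by ring
    have h1 : ‖∏ j ∈ s, a j‖ ≤ C ^ s.card := by
      rw [norm_prod]
      refine (Finset.prod_le_prod (fun _ _ => norm_nonneg _)
        fun j hj => ha j (Finset.mem_insert_of_mem hj)).trans ?_
      rw [Finset.prod_const]
    have h2 := hb i (Finset.mem_insert_self i s)
    have hCn : 0 ≤ C ^ s.card := by positivity
    have hs : 0 ≤ ∑ j ∈ s, ‖a j - b j‖ := Finset.sum_nonneg fun _ _ => norm_nonneg _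
    rw [e]
    refine (norm_add_le _ _).trans ?_
    rw [norm_mul, norm_mul]
    have h3 : ‖a i - b i‖ * ‖∏ j ∈ s, a j‖ ≤ ‖a i - b i‖ * (C ^ s.card * C) := by
      refine mul_le_mul_of_nonneg_left (h1.trans ?_) (norm_nonneg _)
      nlinarith
    have h4 : ‖b i‖ * ‖∏ j ∈ s, a j - ∏ j ∈ s, b j‖ ≤ C * (C ^ s.card * ∑ j ∈ s, ‖a j - b j‖) :=
      mul_le_mul h2 ih' (norm_nonneg _) (by linarith)
    nlinarith

variable {X : Type*} [mX : MeasurableSpace X] {μ : Measure X} [IsProbabilityMeasure μ]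
variable {G : Type*} [Group G] [LinearOrder G] {Φ : G →* Equiv.Perm X}
variable {ℓ : G → ℝ}
variable {J : Type*} [DecidableEq J] [Fintype J]

/-- One step of the approximation. -/
theorem approx_step (hord : ∀ a b c : G, a < b → a * c < b * c)
    (hΦ : ∀ g, MeasurePreserving (Φ g) μ μ) {F : ℕ → Finset G} (hF : Folner F)
    (hℓ : ∀ g h, ℓ (g * h) = ℓ g + ℓ h) (hℓo : ∀ g h, ℓ g < ℓ h → g < h) {s₀ : G}
    (hs₀ : 0 < ℓ s₀) {q : J → ℤ → G} {lam : J → Polynomial ℝ}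
    (hlam : ∀ j n, ℓ (q j n) = (lam j).eval (n : ℝ))
    (hgood : ∀ j, (∃ b : G, ∀ n, q j n = b ^ n) ∨ AEConv μ fun n => (Φ (q j n) : X → X))
    {S : Finset J} (hS0 : ∀ v ∈ S, 0 < (lam v).natDegree)
    (hS1 : ∀ v ∈ S, ∀ w ∈ S, v ≠ w → 0 < (lam v - lam w).natDegree)
    (hS2 : ∀ v ∈ S, ∀ u ∉ S, Tendsto
      (fun n : ℤ => (lam v).eval (n : ℝ) - (lam u).eval (n : ℝ)) cofinite atTop)
    {f e : J → X → ℂ} (hf : ∀ j, BM (f j)) (he : ∀ j, BM (e j))
    (hee : ∀ j ∈ S, e j =ᵐ[μ] μ[f j | pinsker μ Φ F]) (hef : ∀ j ∉ S, e j = f j) {C : ℝ}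
    (hC : 1 ≤ C) (hfC : ∀ j x, ‖f j x‖ + 1 ≤ C) (heC : ∀ j x, ‖e j x‖ + 1 ≤ C) {ε : ℝ}
    (hε : 0 < ε) (hε1 : ε ≤ 1) :
    ∀ᵐ x ∂μ, ∃ A : ℤ → ℂ, (∀ n, ‖(∏ j, f j (Φ (q j n) x) - ∏ j, e j (Φ (q j n) x)) - A n‖ ≤
      4 * (C ^ Fintype.card J * (Fintype.card J * ε))) ∧
      ∀ w : ℤ → ℂ, (∃ C : ℝ, ∀ n, ‖w n‖ ≤ C) → Deterministic w →
        Tendsto (fun N : ℕ => ((2 * N + 1 : ℕ) : ℂ)⁻¹ *
          ∑ n ∈ Finset.Icc (-(N : ℤ)) (N : ℤ), w n * A n) atTop (𝓝 0) := by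
  classical
  have hint : ∀ g : X → ℂ, BM g → Integrable g μ := fun g hg =>
    Integrable.of_bound hg.1.aestronglyMeasurable hg.2.choose
      (Eventually.of_forall hg.2.choose_spec)
  have happ : ∀ i : J ⊕ J, ∃ (r : ℕ) (α : X → Fin r) (φ : Fin r → ℂ), Measurable α ∧
      ∀ x, ‖Sum.elim f e i x - φ (α x)‖ ≤ ε := by
    rintro (j | j)
    · exact exists_finite_approx (hf j).1 (C := C) (fun x => by linarith [hfC j x]) hε
    · exact exists_finite_approx (he j).1 (C := C) (fun x => by linarith [heC j x]) hε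
  choose r a φ ha hφ using happ
  let α : X → (∀ i : J ⊕ J, Fin (r i)) := fun x i => a i x
  have hαm : Measurable α := measurable_pi_iff.2 ha
  have hα : FM α := fun s => hαm (Set.toFinite s).measurableSet
  obtain ⟨E, hE, hE', hEc⟩ := one_partition hΦ hℓ hα hlam hgood hS0 hS1 hS2
    (fun j t => φ (Sum.inl j) (t (Sum.inl j)))
  obtain ⟨D, hD, hD', hDc⟩ := one_partition hΦ hℓ hα hlam hgood hS0 hS1 hS2
    (fun j t => φ (Sum.inr j) (t (Sum.inr j)))
  have hT := tail_le_pinsker hord hΦ hF hℓ hℓo hs₀ hα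
  have hTX := tail_le (ℓ := ℓ) hΦ hℓ hα
  have hP := pinsker_le (μ := μ) (Φ := Φ) F
  have hφf : ∀ j x, ‖f j x - φ (Sum.inl j) (α x (Sum.inl j))‖ ≤ ε := fun j x => hφ (Sum.inl j) x
  have hφe : ∀ j x, ‖e j x - φ (Sum.inr j) (α x (Sum.inr j))‖ ≤ ε := fun j x => hφ (Sum.inr j) x
  have hb1 : ∀ j x, ‖φ (Sum.inl j) (α x (Sum.inl j))‖ ≤ C := by
    intro j x
    have h1 := norm_sub_norm_le (φ (Sum.inl j) (α x (Sum.inl j))) (f j x)
    rw [norm_sub_rev] at h1
    linarith [hφf j x, hfC j x]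
  have hb2 : ∀ j x, ‖φ (Sum.inr j) (α x (Sum.inr j))‖ ≤ C := by
    intro j x
    have h1 := norm_sub_norm_le (φ (Sum.inr j) (α x (Sum.inr j))) (e j x)
    rw [norm_sub_rev] at h1
    linarith [hφe j x, heC j x]
  have hm : ∀ i : J ⊕ J, Measurable fun x => φ i (α x i) := fun i =>
    (measurable_of_finite (φ i)).comp (ha i)
  have hi1 : ∀ j, Integrable (fun x => φ (Sum.inl j) (α x (Sum.inl j))) μ := fun j =>
    hint _ ⟨hm _, C, hb1 j⟩
  have hi2 : ∀ j, Integrable (fun x => φ (Sum.inr j) (α x (Sum.inr j))) μ := fun j =>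
    hint _ ⟨hm _, C, hb2 j⟩
  -- bounds for the conditional expectations
  have hEb : ∀ j, ∀ᵐ x ∂μ, ‖E j x‖ ≤ C := by
    intro j
    by_cases hj : j ∈ S
    · filter_upwards [hE j hj, ae_bdd_norm_condExp_of_ae_bdd_norm (μ := μ) (m := tail Φ ℓ α)
        (f := fun x => φ (Sum.inl j) (α x (Sum.inl j))) (Eventually.of_forall (hb1 j))]
        with x hx1 hx2
      rw [hx1]
      exact hx2
    · rw [hE' j hj]
      exact Eventually.of_forall (hb1 j)
  have hDb : ∀ j, ∀ᵐ x ∂μ, ‖D j x‖ ≤ C := by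
    intro j
    by_cases hj : j ∈ S
    · filter_upwards [hD j hj, ae_bdd_norm_condExp_of_ae_bdd_norm (μ := μ) (m := tail Φ ℓ α)
        (f := fun x => φ (Sum.inr j) (α x (Sum.inr j))) (Eventually.of_forall (hb2 j))]
        with x hx1 hx2
      rw [hx1]
      exact hx2
    · rw [hD' j hj]
      exact Eventually.of_forall (hb2 j)
  have hED : ∀ j, ∀ᵐ x ∂μ, ‖E j x - D j x‖ ≤ 2 * ε := by
    intro j
    by_cases hj : j ∈ S
    · set h : X → ℂ := fun x => (φ (Sum.inl j) (α x (Sum.inl j)) - f j x) -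
        (φ (Sum.inr j) (α x (Sum.inr j)) - e j x) with hh
      have hhb : ∀ x, ‖h x‖ ≤ 2 * ε := by
        intro x
        refine (norm_sub_le _ _).trans ?_
        rw [norm_sub_rev, norm_sub_rev (φ (Sum.inr j) _)]
        linarith [hφf j x, hφe j x]
      have hhi : Integrable h μ := ((hi1 j).sub (hint _ (hf j))).sub ((hi2 j).sub (hint _ (he j)))
      have h1 := condExp_sub (hi1 j) (hi2 j) (tail Φ ℓ α)
      have h2 : (fun x => φ (Sum.inl j) (α x (Sum.inl j))) -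
          (fun x => φ (Sum.inr j) (α x (Sum.inr j))) = h + (f j - e j) := by
        funext x
        simp only [hh, Pi.sub_apply, Pi.add_apply]
        ring
      have h3 := condExp_add hhi ((hint _ (hf j)).sub (hint _ (he j))) (tail Φ ℓ α)
      have h4 := condExp_sub (hint _ (hf j)) (hint _ (he j)) (tail Φ ℓ α)
      have h5 : μ[e j | tail Φ ℓ α] =ᵐ[μ] μ[f j | tail Φ ℓ α] :=
        (condExp_congr_ae (hee j hj)).trans (condExp_condExp_of_le hT hP)
      have h6 := ae_bdd_norm_condExp_of_ae_bdd_norm (μ := μ) (m := tail Φ ℓ α)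
        (f := h) (Eventually.of_forall hhb)
      rw [h2] at h1
      filter_upwards [hE j hj, hD j hj, h1, h3, h4, h5, h6] with x x1 x2 x3 x4 x5 x6 x7
      rw [x1, x2]
      have h7 : (μ[fun x => φ (Sum.inl j) (α x (Sum.inl j)) | tail Φ ℓ α]) x -
          (μ[fun x => φ (Sum.inr j) (α x (Sum.inr j)) | tail Φ ℓ α]) x =
          (μ[h | tail Φ ℓ α]) x := by
        rw [Pi.sub_apply] at x3 x5
        rw [Pi.add_apply] at x4
        rw [← x3, x4, x5, x6, sub_self, add_zero]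
      rw [h7]
      exact x7
    · rw [hE' j hj, hD' j hj]
      refine Eventually.of_forall fun x => ?_
      have h1 := hφf j x
      have h2 := hφe j x
      rw [hef j hj] at h2
      have h3 : φ (Sum.inl j) (α x (Sum.inl j)) - φ (Sum.inr j) (α x (Sum.inr j)) =
          (f j x - φ (Sum.inr j) (α x (Sum.inr j))) -
            (f j x - φ (Sum.inl j) (α x (Sum.inl j))) := by ring
      show ‖φ (Sum.inl j) (α x (Sum.inl j)) - φ (Sum.inr j) (α x (Sum.inr j))‖ ≤ 2 * ε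
      rw [h3]
      refine (norm_sub_le _ _).trans ?_
      linarith
  have pull : ∀ {P : J → X → Prop}, (∀ j, ∀ᵐ x ∂μ, P j x) →
      ∀ᵐ x ∂μ, ∀ (n : ℤ) (j : J), P j (Φ (q j n) x) := by
    intro P hPj
    rw [ae_all_iff]
    intro n
    rw [ae_all_iff]
    intro j
    exact (hΦ _).quasiMeasurePreserving.ae (hPj j)
  filter_upwards [hEc, hDc, pull hEb, pull hDb, pull hED] with x hx1 hx2 hx3 hx4 hx5
  refine ⟨fun n => (∏ j, φ (Sum.inl j) (α (Φ (q j n) x) (Sum.inl j)) -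
    ∏ j, E j (Φ (q j n) x)) - (∏ j, φ (Sum.inr j) (α (Φ (q j n) x) (Sum.inr j)) -
    ∏ j, D j (Φ (q j n) x)), fun n => ?_, fun w hw hdet => ?_⟩
  · have e1 := prod_diff_c (Finset.univ : Finset J) hC
      (a := fun j => f j (Φ (q j n) x)) (b := fun j => φ (Sum.inl j) (α (Φ (q j n) x) (Sum.inl j)))
      (fun j _ => by linarith [hfC j (Φ (q j n) x)]) (fun j _ => hb1 j _)
    have e2 := prod_diff_c (Finset.univ : Finset J) hC
      (a := fun j => φ (Sum.inr j) (α (Φ (q j n) x) (Sum.inr j))) (b := fun j => e j (Φ (q j n) x))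
      (fun j _ => hb2 j _) (fun j _ => by linarith [heC j (Φ (q j n) x)])
    have e3 := prod_diff_c (Finset.univ : Finset J) hC
      (a := fun j => E j (Φ (q j n) x)) (b := fun j => D j (Φ (q j n) x))
      (fun j _ => hx3 n j) (fun j _ => hx4 n j)
    rw [Finset.card_univ] at e1 e2 e3
    have hCn : 0 ≤ C ^ Fintype.card J := by positivity
    have s1 : ∑ j, ‖f j (Φ (q j n) x) - φ (Sum.inl j) (α (Φ (q j n) x) (Sum.inl j))‖ ≤
        Fintype.card J * ε := by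
      refine (Finset.sum_le_sum fun j _ => hφf j _).trans (le_of_eq ?_)
      rw [Finset.sum_const, Finset.card_univ, nsmul_eq_mul]
    have s2 : ∑ j, ‖φ (Sum.inr j) (α (Φ (q j n) x) (Sum.inr j)) - e j (Φ (q j n) x)‖ ≤
        Fintype.card J * ε := by
      refine (Finset.sum_le_sum (g := fun _ => ε) fun j _ => ?_).trans (le_of_eq ?_)
      · rw [norm_sub_rev]
        exact hφe j _
      · rw [Finset.sum_const, Finset.card_univ, nsmul_eq_mul]
    have s3 : ∑ j, ‖E j (Φ (q j n) x) - D j (Φ (q j n) x)‖ ≤ Fintype.card J * (2 * ε) := by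
      refine (Finset.sum_le_sum fun j _ => hx5 n j).trans (le_of_eq ?_)
      rw [Finset.sum_const, Finset.card_univ, nsmul_eq_mul]
    have t1 := e1.trans (mul_le_mul_of_nonneg_left s1 hCn)
    have t2 := e2.trans (mul_le_mul_of_nonneg_left s2 hCn)
    have t3 := e3.trans (mul_le_mul_of_nonneg_left s3 hCn)
    have hdec : (∏ j, f j (Φ (q j n) x) - ∏ j, e j (Φ (q j n) x)) -
        ((∏ j, φ (Sum.inl j) (α (Φ (q j n) x) (Sum.inl j)) - ∏ j, E j (Φ (q j n) x)) -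
          (∏ j, φ (Sum.inr j) (α (Φ (q j n) x) (Sum.inr j)) - ∏ j, D j (Φ (q j n) x))) =
        (∏ j, f j (Φ (q j n) x) - ∏ j, φ (Sum.inl j) (α (Φ (q j n) x) (Sum.inl j))) +
        (∏ j, φ (Sum.inr j) (α (Φ (q j n) x) (Sum.inr j)) - ∏ j, e j (Φ (q j n) x)) +
        (∏ j, E j (Φ (q j n) x) - ∏ j, D j (Φ (q j n) x)) := by ring
    rw [hdec]
    refine (norm_add_le _ _).trans ((add_le_add (norm_add_le _ _) le_rfl).trans ?_)
    nlinarith
  · have h1 := (hx1 w hw hdet).sub (hx2 w hw hdet)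
    rw [sub_zero] at h1
    refine h1.congr fun N => ?_
    rw [← mul_sub, ← Finset.sum_sub_distrib]
    congr 1
    refine Finset.sum_congr rfl fun n _ => ?_
    rw [← mul_sub]

/-- **The Pinsker factor is characteristic, with all deterministic weights at once.** -/
theorem pinsker_char (hord : ∀ a b c : G, a < b → a * c < b * c)
    (hΦ : ∀ g, MeasurePreserving (Φ g) μ μ) {F : ℕ → Finset G} (hF : Folner F)
    (hℓ : ∀ g h, ℓ (g * h) = ℓ g + ℓ h) (hℓo : ∀ g h, ℓ g < ℓ h → g < h)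
    {q : J → ℤ → G} {lam : J → Polynomial ℝ}
    (hlam : ∀ j n, ℓ (q j n) = (lam j).eval (n : ℝ))
    (hgood : ∀ j, (∃ b : G, ∀ n, q j n = b ^ n) ∨ AEConv μ fun n => (Φ (q j n) : X → X))
    {S : Finset J} (hS0 : ∀ v ∈ S, 0 < (lam v).natDegree)
    (hS1 : ∀ v ∈ S, ∀ w ∈ S, v ≠ w → 0 < (lam v - lam w).natDegree)
    (hS2 : ∀ v ∈ S, ∀ u ∉ S, Tendsto
      (fun n : ℤ => (lam v).eval (n : ℝ) - (lam u).eval (n : ℝ)) cofinite atTop)
    {f e : J → X → ℂ} (hf : ∀ j, BM (f j)) (he : ∀ j, BM (e j))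
    (hee : ∀ j ∈ S, e j =ᵐ[μ] μ[f j | pinsker μ Φ F]) (hef : ∀ j ∉ S, e j = f j) :
    ∀ᵐ x ∂μ, ∀ w : ℤ → ℂ, (∃ C : ℝ, ∀ n, ‖w n‖ ≤ C) → Deterministic w →
      Tendsto (fun N : ℕ => ((2 * N + 1 : ℕ) : ℂ)⁻¹ *
        ∑ n ∈ Finset.Icc (-(N : ℤ)) (N : ℤ), w n * (∏ j, f j (Φ (q j n) x) -
          ∏ j, e j (Φ (q j n) x))) atTop (𝓝 0) := by
  classical
  rcases S.eq_empty_or_nonempty with hS | hS
  · subst hS
    refine Eventually.of_forall fun x w _ _ => ?_
    have : ∀ n : ℤ, w n * (∏ j, f j (Φ (q j n) x) - ∏ j, e j (Φ (q j n) x)) = 0 := by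
      intro n
      rw [Finset.prod_congr rfl fun j _ => by rw [← hef j (Finset.notMem_empty j)], sub_self,
        mul_zero]
    simp only [this, Finset.sum_const_zero, mul_zero]
    exact tendsto_const_nhds
  have hℓ1 : ℓ 1 = 0 := by
    have := hℓ 1 1
    rw [mul_one] at this
    linarith
  have hinv : ∀ g, ℓ g⁻¹ = -ℓ g := by
    intro g
    have := hℓ g g⁻¹
    rw [mul_inv_cancel, hℓ1] at this
    linarith
  obtain ⟨s₀, hs₀⟩ : ∃ s₀ : G, 0 < ℓ s₀ := by
    obtain ⟨v, hv⟩ := hS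
    have h1 : ∃ n : ℤ, ℓ (q v n) ≠ 0 := by
      by_contra hcon
      push Not at hcon
      rcases poly_tendsto (hS0 v hv) with h | h
      · have h2 : (fun n : ℕ => (lam v).eval (n : ℝ)) = fun _ => 0 := by
          funext n
          have := hcon n
          rw [hlam] at this
          exact_mod_cast this
        rw [h2] at h
        exact not_tendsto_const_atTop _ _ h
      · have h2 : (fun n : ℕ => -(lam v).eval (n : ℝ)) = fun _ => 0 := by
          funext n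
          have := hcon n
          rw [hlam] at this
          rw [neg_eq_zero]
          exact_mod_cast this
        rw [h2] at h
        exact not_tendsto_const_atTop _ _ h
    obtain ⟨n, hn⟩ := h1
    rcases lt_or_gt_of_ne hn with h | h
    · exact ⟨(q v n)⁻¹, by rw [hinv]; linarith⟩
    · exact ⟨q v n, h⟩
  choose Cf hCf using fun j => (hf j).2
  choose Ce hCe using fun j => (he j).2
  set C : ℝ := ∑ j, (|Cf j| + |Ce j|) + 1 with hCdef
  have hCj : ∀ j, |Cf j| + |Ce j| + 1 ≤ C := fun j => by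
    have := Finset.single_le_sum (f := fun j => |Cf j| + |Ce j|) (fun i _ => by positivity)
      (Finset.mem_univ j)
    linarith
  have hC : 1 ≤ C := by
    have : 0 ≤ ∑ j, (|Cf j| + |Ce j|) := Finset.sum_nonneg fun i _ => by positivity
    linarith
  have hfC : ∀ j x, ‖f j x‖ + 1 ≤ C := fun j x => by
    have h1 := hCf j x
    have h2 := le_abs_self (Cf j)
    have h3 := abs_nonneg (Ce j)
    linarith [hCj j]
  have heC : ∀ j x, ‖e j x‖ + 1 ≤ C := fun j x => by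
    have h1 := hCe j x
    have h2 := le_abs_self (Ce j)
    have h3 := abs_nonneg (Cf j)
    linarith [hCj j]
  have hall := ae_all_iff.2 fun i : ℕ => approx_step hord hΦ hF hℓ hℓo hs₀ hlam hgood hS0 hS1 hS2
    hf he hee hef hC hfC heC (ε := 1 / ((i : ℝ) + 1)) (by positivity)
    ((div_le_one (by positivity)).2 (by linarith [(Nat.cast_nonneg i : (0 : ℝ) ≤ i)]))
  filter_upwards [hall] with x hx w hw hdet
  obtain ⟨W, hW⟩ := hw
  have hW0 : 0 ≤ W := (norm_nonneg _).trans (hW 0)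
  rw [Metric.tendsto_nhds]
  intro δ hδ
  set K : ℝ := 4 * (C ^ Fintype.card J * Fintype.card J) * W with hK
  have hK0 : 0 ≤ K := by positivity
  obtain ⟨i, hi⟩ := exists_nat_one_div_lt (show 0 < δ / (2 * (K + 1)) by positivity)
  obtain ⟨A, hA, hAt⟩ := hx i
  have h1 := (hAt w ⟨W, hW⟩ hdet).norm
  rw [norm_zero] at h1
  filter_upwards [(tendsto_order.1 h1).2 (δ / 2) (by positivity)] with N hN
  rw [dist_zero_right]
  have hdec : ((2 * N + 1 : ℕ) : ℂ)⁻¹ * ∑ n ∈ Finset.Icc (-(N : ℤ)) (N : ℤ), w n *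
      (∏ j, f j (Φ (q j n) x) - ∏ j, e j (Φ (q j n) x)) =
      ((2 * N + 1 : ℕ) : ℂ)⁻¹ * ∑ n ∈ Finset.Icc (-(N : ℤ)) (N : ℤ), w n * A n +
      ((2 * N + 1 : ℕ) : ℂ)⁻¹ * ∑ n ∈ Finset.Icc (-(N : ℤ)) (N : ℤ), w n *
        ((∏ j, f j (Φ (q j n) x) - ∏ j, e j (Φ (q j n) x)) - A n) := by
    rw [← mul_add, ← Finset.sum_add_distrib]
    congr 1
    refine Finset.sum_congr rfl fun n _ => ?_
    ring
  rw [hdec]
  refine (norm_add_le _ _).trans_lt ?_
  have hcard : ((Finset.Icc (-(N : ℤ)) (N : ℤ)).card : ℝ) = 2 * N + 1 := by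
    rw [Int.card_Icc]
    have : ((N : ℤ) + 1 - -(N : ℤ)).toNat = 2 * N + 1 := by omega
    rw [this]
    push_cast
    ring
  have hsecond : ‖((2 * N + 1 : ℕ) : ℂ)⁻¹ * ∑ n ∈ Finset.Icc (-(N : ℤ)) (N : ℤ), w n *
        ((∏ j, f j (Φ (q j n) x) - ∏ j, e j (Φ (q j n) x)) - A n)‖ ≤
      K * (1 / ((i : ℝ) + 1)) := by
    rw [norm_mul, norm_inv, Complex.norm_natCast]
    have h2 : ‖∑ n ∈ Finset.Icc (-(N : ℤ)) (N : ℤ), w n *
        ((∏ j, f j (Φ (q j n) x) - ∏ j, e j (Φ (q j n) x)) - A n)‖ ≤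
        (2 * N + 1) * (K * (1 / ((i : ℝ) + 1))) := by
      refine (norm_sum_le _ _).trans ((Finset.sum_le_sum (g := fun _ => K * (1 / ((i : ℝ) + 1)))
        fun n _ => ?_).trans (le_of_eq ?_))
      · rw [norm_mul]
        refine (mul_le_mul (hW n) (hA n) (norm_nonneg _) hW0).trans (le_of_eq ?_)
        rw [hK]
        ring
      · rw [Finset.sum_const, nsmul_eq_mul, hcard]
    push_cast
    rw [inv_mul_le_iff₀ (by positivity)]
    exact h2
  have h3 : K * (1 / ((i : ℝ) + 1)) ≤ δ / 2 := by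
    have h4 : K * (1 / ((i : ℝ) + 1)) ≤ (K + 1) * (δ / (2 * (K + 1))) :=
      mul_le_mul (by linarith) hi.le (by positivity) (by linarith)
    refine h4.trans (le_of_eq ?_)
    field_simp
  linarith

end Pool.Agent.W5h42.PK
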