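import Pool.Agent.W5h42.PK.Apx
import Pool.Agent.W5h42.PK.Defs

/-!
# The remote past of a finite partition has zero entropy
-/

set_option autoImplicit false
set_option linter.unusedSectionVars false

open MeasureTheory Filter Topology
open scoped ENNReal

noncomputable section

namespace Pool.Agent.W5h42.PK

open Pool.Agent.R546.MK (FM Hm law)

variable {X : Type*} [mX : MeasurableSpace X] {μ : Measure X} [IsProbabilityMeasure μ]
variable {G : Type*} [Group G] [LinearOrder G] {Φ : G →* Equiv.Perm X}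
variable {ι : Type*} [Fintype ι] {ℓ : G → ℝ}

theorem setEnt_eq (F : Finset G) (B : Set X) : setEnt μ Φ F B = Hm μ (nmF Φ (ind B) F) := by
  unfold setEnt Hm H137.PFR.ent law
  refine Finset.sum_congr rfl fun w _ => ?_
  congr 2
  ext x
  simp only [Set.mem_ofPred_eq, Set.mem_preimage, Set.mem_singleton_iff]
  rw [funext_iff]
  refine forall_congr' fun g => ?_
  unfold nmF ind
  by_cases hx : Φ g x ∈ B
  · simp only [hx, decide_true, true_iff]
    exact eq_comm
  · simp only [hx, decide_false, false_iff]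
    cases w g <;> simp

/-- the past below a finite set determines a tail set -/
theorem tail_names (hΦ : ∀ g, MeasurePreserving (Φ g) μ μ) (hℓ : ∀ g h, ℓ (g * h) = ℓ g + ℓ h)
    {α : X → ι} (hα : FM α) {B : Set X} (hBm : MeasurableSet B)
    (hB : ∀ t : ℝ, MeasurableSet[gen Φ α {g | ℓ g ≤ t}] B) (F : Finset G) (t : ℝ) {ε : ℝ}
    (hε : 0 < ε) :
    ∃ K : Finset G, (∀ k ∈ K, ℓ k ≤ t) ∧ Hc μ (nmF Φ (ind B) F) (nmF Φ α K) ≤ F.card * ε := by
  classical
  have hex : ∀ g : G, ∃ K : Finset G, (∀ k ∈ K, ℓ k ≤ t) ∧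
      Hc μ (fun x => ind B (Φ g x)) (nmF Φ α K) ≤ ε := by
    intro g
    obtain ⟨K', hK', hc⟩ := approx_set hΦ hα (hB (t - ℓ g)) hε
    refine ⟨K'.image (· * g), ?_, ?_⟩
    · intro k hk
      obtain ⟨k', hk', rfl⟩ := Finset.mem_image.1 hk
      have := hK' k' hk'
      simp only [Set.mem_ofPred_eq] at this
      show ℓ (k' * g) ≤ t
      rw [hℓ]
      linarith
    · refine le_trans ?_ hc
      have h1 := hc_anti (μ := μ) (fm_shift hΦ (fm_ind hBm) g) (fm_nm hΦ hα (K'.image (· * g)))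
        (fm_shift hΦ (fm_nm hΦ hα K') g) (by
          intro x y e
          rw [nm_iff] at e ⊢
          intro k hk
          rw [← phi_mul, ← phi_mul]
          exact e _ (Finset.mem_image_of_mem _ hk))
      refine h1.trans (le_of_eq ?_)
      exact hc_shift hΦ (fm_ind hBm) (fm_nm hΦ hα K') g
  choose K hK hKc using hex
  refine ⟨F.biUnion K, ?_, ?_⟩
  · intro k hk
    obtain ⟨g, _, hk⟩ := Finset.mem_biUnion.1 hk
    exact hK g k hk
  · refine (hc_names hΦ (fm_ind hBm) (fm_nm hΦ hα _) (c := fun _ => ε) F fun g hg => ?_).trans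
      (le_of_eq ?_)
    · refine (hc_anti (fm_shift hΦ (fm_ind hBm) g) (fm_nm hΦ hα _) (fm_nm hΦ hα (K g)) ?_).trans
        (hKc g)
      intro x y e
      rw [nm_iff] at e ⊢
      intro k hk
      exact e k (Finset.mem_biUnion.2 ⟨g, hg, hk⟩)
    · rw [Finset.sum_const, nsmul_eq_mul]

theorem sum_good (F K : Finset G) {u v : ℝ} (hu : 0 ≤ u) (hv : 0 ≤ v) :
    ∑ g ∈ F, (if ∀ k ∈ K, k * g ∈ F then u else v) ≤
      F.card * u + (∑ k ∈ K, ((F.filter fun g => k * g ∉ F).card : ℝ)) * v := by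
  classical
  have h1 : ∀ g ∈ F, (if ∀ k ∈ K, k * g ∈ F then u else v) ≤
      u + (∑ k ∈ K, if k * g ∉ F then (1 : ℝ) else 0) * v := by
    intro g _
    split_ifs with h
    · have : 0 ≤ (∑ k ∈ K, if k * g ∉ F then (1 : ℝ) else 0) * v :=
        mul_nonneg (Finset.sum_nonneg fun k _ => by split_ifs <;> norm_num) hv
      linarith
    · push Not at h
      obtain ⟨k, hk, hkF⟩ := h
      have h2 : (1 : ℝ) ≤ ∑ k ∈ K, if k * g ∉ F then (1 : ℝ) else 0 := by
        have := Finset.single_le_sum (f := fun k => if k * g ∉ F then (1 : ℝ) else 0)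
          (fun i _ => by split_ifs <;> norm_num) hk
        simp only [hkF, not_false_eq_true, if_true] at this
        exact this
      nlinarith
  refine (Finset.sum_le_sum h1).trans (le_of_eq ?_)
  rw [Finset.sum_add_distrib, Finset.sum_const, nsmul_eq_mul, ← Finset.sum_mul]
  congr 2
  rw [Finset.sum_comm]
  refine Finset.sum_congr rfl fun k _ => ?_
  rw [Finset.sum_ite, Finset.sum_const_zero, add_zero, Finset.sum_const, nsmul_eq_mul, mul_one]

/-- **The remote past of a finite partition has zero entropy.** -/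
theorem tail_zero (hord : ∀ a b c : G, a < b → a * c < b * c)
    (hΦ : ∀ g, MeasurePreserving (Φ g) μ μ) {F : ℕ → Finset G} (hF : Folner F)
    (hℓ : ∀ g h, ℓ (g * h) = ℓ g + ℓ h) (hℓo : ∀ g h, ℓ g < ℓ h → g < h)
    {α : X → ι} (hα : FM α) {B : Set X}
    (hB : ∀ t : ℝ, MeasurableSet[gen Φ α {g | ℓ g ≤ t}] B) : ZeroSet μ Φ F B := by
  classical
  have hBm : MeasurableSet B := gen_le hΦ hα _ _ (hB 0)
  refine ⟨hBm, ?_⟩
  have hβ := fm_ind hBm
  have hℓ1 : ℓ 1 = 0 := by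
    have := hℓ 1 1
    rw [mul_one] at this
    linarith
  set h : ℝ := ⨅ K : {K : Finset G // ∀ k ∈ K, k < 1}, Hc μ α (nmF Φ α K.1) with hdef
  have hbdd : BddBelow (Set.range fun K : {K : Finset G // ∀ k ∈ K, k < 1} =>
      Hc μ α (nmF Φ α K.1)) := ⟨0, by
    rintro _ ⟨K, rfl⟩
    exact hc_nonneg hα (fm_nm hΦ hα _)⟩
  have hh : ∀ K : Finset G, (∀ k ∈ K, k < 1) → h ≤ Hc μ α (nmF Φ α K) := fun K hK =>
    ciInf_le hbdd ⟨K, hK⟩
  have hne : Nonempty {K : Finset G // ∀ k ∈ K, k < 1} := ⟨⟨∅, by simp⟩⟩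
  have hnn : ∀ N, 0 ≤ setEnt μ Φ (F N) B / (F N).card := by
    intro N
    rw [setEnt_eq]
    exact div_nonneg (hm_nonneg (fm_nm hΦ hβ _)) (Nat.cast_nonneg _)
  rw [Metric.tendsto_atTop]
  suffices hmain : ∀ ε : ℝ, 0 < ε → ∀ᶠ N in atTop, setEnt μ Φ (F N) B / (F N).card ≤ 4 * ε by
    intro ε hε
    obtain ⟨N₀, hN₀⟩ := eventually_atTop.1 (hmain (ε / 8) (by positivity))
    refine ⟨N₀, fun N hN => ?_⟩
    rw [Real.dist_eq, sub_zero, abs_of_nonneg (hnn N)]
    linarith [hN₀ N hN]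
  intro ε hε
  obtain ⟨⟨K₁, hK₁⟩, hc₁⟩ := exists_lt_of_ciInf_lt (show h < h + ε by linarith)
  obtain ⟨K₂, hK₂, hc₂⟩ := approx_set hΦ hα (hB (-1)) hε
  set K : Finset G := K₁ ∪ K₂ with hKdef
  have hK : ∀ k ∈ K, k < 1 := by
    intro k hk
    rcases Finset.mem_union.1 hk with hk | hk
    · exact hK₁ k hk
    · have := hK₂ k hk
      simp only [Set.mem_ofPred_eq] at this
      refine hℓo _ _ ?_
      rw [hℓ1]
      linarith
  have hcα : Hc μ α (nmF Φ α K) ≤ h + ε := by
    refine (hc_anti hα (fm_nm hΦ hα K) (fm_nm hΦ hα K₁) ?_).trans hc₁.le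
    intro x y e
    rw [nm_iff] at e ⊢
    exact fun k hk => e k (Finset.mem_union_left _ hk)
  have hcβ : Hc μ (ind B) (nmF Φ α K) ≤ ε := by
    refine (hc_anti hβ (fm_nm hΦ hα K) (fm_nm hΦ hα K₂) ?_).trans hc₂
    intro x y e
    rw [nm_iff] at e ⊢
    exact fun k hk => e k (Finset.mem_union_right _ hk)
  have hcα0 := hc_nonneg (μ := μ) hα (fm_nm hΦ hα K)
  have hcβ0 := hc_nonneg (μ := μ) hβ (fm_nm hΦ hα K)
  set C : ℝ := Hm μ α + Hm μ (ind B) with hC
  have hα0 := hm_nonneg (μ := μ) hα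
  have hβ0 := hm_nonneg (μ := μ) hβ
  -- the bound for one finite set
  have hone : ∀ N, setEnt μ Φ (F N) B ≤ (F N).card * (3 * ε) +
      (∑ k ∈ K, (((F N).filter fun g => k * g ∉ F N).card : ℝ)) * C := by
    intro N
    obtain ⟨g₀, hg₀, hmin⟩ := (F N).exists_min_image ℓ (hF.1 N)
    obtain ⟨K₃, hK₃, hc₃⟩ := tail_names hΦ hℓ hα hBm hB (F N) (ℓ g₀ - 1) hε
    have h1 := joint hord hΦ hα hβ hh (F N) (K := K₃) (fun g hg k hk => by
      refine hℓo _ _ ?_
      have := hK₃ k hk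
      have := hmin g hg
      linarith)
    have h2 := upper_given hΦ hα hβ K (F N)
    have h3 := upper hord hΦ hα hK (F N)
    have h4 := sum_good (F N) K hcβ0 hβ0
    have h5 := sum_good (F N) K hcα0 hα0
    have h6 : ((F N).card : ℝ) * Hc μ (ind B) (nmF Φ α K) ≤ (F N).card * ε :=
      mul_le_mul_of_nonneg_left hcβ (Nat.cast_nonneg _)
    have h7 : ((F N).card : ℝ) * Hc μ α (nmF Φ α K) ≤ (F N).card * (h + ε) :=
      mul_le_mul_of_nonneg_left hcα (Nat.cast_nonneg _)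
    rw [setEnt_eq, hC]
    linarith
  have hlim : Tendsto (fun N : ℕ => (∑ k ∈ K, (((F N).filter fun g => k * g ∉ F N).card : ℝ) /
      (F N).card) * C) atTop (𝓝 0) := by
    have h1 := tendsto_finsetSum K fun k _ => hF.2 k
    rw [Finset.sum_const_zero] at h1
    have h2 := h1.mul_const C
    rw [zero_mul] at h2
    exact h2
  filter_upwards [(tendsto_order.1 hlim).2 ε hε] with N hN
  have hpos : (0 : ℝ) < (F N).card := by exact_mod_cast (hF.1 N).card_pos
  rw [div_le_iff₀ hpos]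
  refine (hone N).trans ?_
  have h8 : (∑ k ∈ K, (((F N).filter fun g => k * g ∉ F N).card : ℝ)) * C =
      ((∑ k ∈ K, (((F N).filter fun g => k * g ∉ F N).card : ℝ) / (F N).card) * C) *
        (F N).card := by
    rw [← Finset.sum_div, div_mul_eq_mul_div, div_mul_cancel₀ _ hpos.ne']
  rw [h8]
  nlinarith

end Pool.Agent.W5h42.PK
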